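import Pool.Agent.H.MP_04c77c_pr.A

namespace Pool.Agent.Results.MP_04c77c_pr.NotConvex

open MeasureTheory

noncomputable def integrand {d : ℕ} (m : Measure (Fin d → ℝ)) (x : Fin d → ℝ) : ℝ :=
  Real.negMulLog (m.rnDeriv volume x).toReal

noncomputable def sumLaw {d n : ℕ} (μ : Fin n → Measure (Fin d → ℝ)) (S : Finset (Fin n)) :
    Measure (Fin d → ℝ) := (Measure.pi μ).map fun x => ∑ i ∈ S, x i

def region (n : ℕ) : Set ({S : Finset (Fin n) // S.Nonempty} → ℝ) :=
  {v | ∃ d : ℕ, 1 ≤ d ∧ ∃ μ : Fin n → Measure (Fin d → ℝ),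
    (∀ i, IsProbabilityMeasure (μ i) ∧ μ i ≪ volume) ∧ ∀ S, Integrable (integrand (sumLaw μ S.1)) ∧
      v S = Real.exp (2 / d * ∫ x, integrand (sumLaw μ S.1) x)}

open Pool.Agent.H.MP_04c77c_pr Measure Real

lemma pt (u : Fin 3 → Fin 2 → ℝ) (hu : ∀ i j, 1 / 20 ≤ u i j) : ∃ v ∈ region 3,
    (∀ S, 0 < v S ∧ v S ≤ ∏ j, (∑ i ∈ S.1, u i) j) ∧
      ∀ S, law (fun i => U (u i)) S.1 ≤ volume → 1 ≤ v S := by
  have p : ∀ i j, 0 < u i j := fun i j => lt_of_lt_of_le (by norm_num) (hu i j)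
  have := fun i => U_prob (p i)
  have l : ∀ i, U (u i) ≤ (400 : NNReal) • volume := fun i => U_le (by
    rw [← ENNReal.ofReal_mul (p i 0).le, ← ENNReal.ofReal_inv_of_pos (mul_pos (p i 0) (p i 1))]
    refine ENNReal.ofReal_le_of_le_toReal ((inv_le_comm₀ (mul_pos (p i 0) (p i 1)) (by simp)).mpr ?_)
    have := mul_le_mul (hu i 0) (hu i 1) (by norm_num) (p i 0).le
    norm_num at this ⊢; linarith)
  have s := law_supp (fun i => U (u i)) fun i => U_supp (u i)
  have b : ∀ S : {S : Finset (Fin 3) // S.Nonempty}, law (fun i => U (u i)) S.1 ≤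
      (400 : NNReal) • volume := fun S => law_le _ S.2.choose_spec (l _)
  have n := fun S => int (s _) (b S)
  refine ⟨fun S => exp (∫ x, φ (law (fun i => U (u i)) S.1) x), ⟨2, one_le_two, fun i => U (u i),
    fun i => ⟨this i, absolutelyContinuous_of_le_smul (l i)⟩, fun S => ⟨n S, by simp; rfl⟩⟩,
    fun S => ⟨exp_pos _, upper (absolutelyContinuous_of_le_smul (b S)) (fun j => ?_) (s _) (n S)⟩,
    fun S h => one_le_exp (lower h)⟩
  rw [Finset.sum_apply]
  exact Finset.sum_pos (fun i _ => p i j) S.2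

theorem result : ¬ Convex ℝ (closure (region 3)) := fun h => by
  let A : {S : Finset (Fin 3) // S.Nonempty} := ⟨{0, 1, 2}, by simp⟩
  let B : {S : Finset (Fin 3) // S.Nonempty} := ⟨{2}, by simp⟩
  let C : {S : Finset (Fin 3) // S.Nonempty} := ⟨{0, 2}, by simp⟩
  let D : {S : Finset (Fin 3) // S.Nonempty} := ⟨{1, 2}, by simp⟩
  have c : closure (region 3) ⊆ {v | v A * v B ≤ v C * v D} := by
    refine closure_minimal ?_ (isClosed_le (by fun_prop) (by fun_prop))
    rintro v ⟨d, -, μ, h1, h2⟩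
    have := fun i => (h1 i).1
    have e1 : law μ C.1 = μ 0 ∗ μ 2 := (law_ins μ (by decide)).trans (by rw [law_one])
    have e2 : law μ D.1 = μ 1 ∗ μ 2 := (law_ins μ (by decide)).trans (by rw [law_one])
    have e3 : law μ A.1 = μ 0 ∗ (μ 1 ∗ μ 2) := (law_ins μ (by decide)).trans (by rw [← e2])
    have e0 : law μ B.1 = μ 2 := law_one μ 2
    have k := submod (μ 0) (μ 1) (μ 2) (h1 2).2 (e0 ▸ (h2 B).1) (e1 ▸ (h2 C).1) (e2 ▸ (h2 D).1)
      (e3 ▸ (h2 A).1)
    rw [← e3, ← e1, ← e2, ← e0] at k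
    show v A * v B ≤ v C * v D
    rw [(h2 A).2, (h2 B).2, (h2 C).2, (h2 D).2, ← exp_add, ← exp_add, ← mul_add, ← mul_add]
    exact exp_le_exp.mpr (mul_le_mul_of_nonneg_left k (by positivity))
  obtain ⟨v, v0, v1, v2⟩ := pt ![![1 / 20, 1 / 20], ![1 / 20, 1 / 20], ![1, 1]]
    (by simp [Fin.forall_fin_succ]; norm_num)
  obtain ⟨w, w0, w1, w2⟩ := pt ![![1, 1 / 20], ![1 / 20, 1], ![1 / 20, 1 / 20]]
    (by simp [Fin.forall_fin_succ]; norm_num)
  have u1 : U ![1, 1] ≤ (1 : NNReal) • volume := U_le (by simp)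
  have pr : ∀ u : Fin 3 → Fin 2 → ℝ, (∀ i j, 0 < u i j) → ∀ i, IsProbabilityMeasure (U (u i)) :=
    fun u h i => U_prob (h i)
  have := pr ![![1 / 20, 1 / 20], ![1 / 20, 1 / 20], ![1, 1]] (by simp [Fin.forall_fin_succ])
  have a1 := v2 A ((law_le _ (S := A.1) (i := 2) (by decide) u1).trans_eq (one_smul _ _))
  have a2 := v2 B ((law_le _ (S := B.1) (i := 2) (by decide) u1).trans_eq (one_smul _ _))
  have := pr ![![1, 1 / 20], ![1 / 20, 1], ![1 / 20, 1 / 20]] (by simp [Fin.forall_fin_succ])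
  have a3 := w2 A (by
    rw [show A.1 = insert 2 (insert 0 {1}) by decide, law_ins _ (by decide), law_ins _ (by decide),
      law_one]
    have : IsProbabilityMeasure (U ![1, 1 / 20]) := this 0
    have : IsProbabilityMeasure (U ![1 / 20, 1]) := U_prob (by simp [Fin.forall_fin_two])
    exact (conv_le _ (M := 1) ((UU (ε := 1 / 20) (by norm_num)).trans_eq
      (one_smul _ _).symm)).trans_eq (one_smul _ _))
  have k := c (h (subset_closure v0) (subset_closure w0) one_half_pos.le one_half_pos.le (add_halves 1))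
  have a4 := v1 C
  have a5 := v1 D
  have a6 := w1 C
  have a7 := w1 D
  have a8 := (w1 B).1
  simp [C, D] at a4 a5 a6 a7 k
  norm_num at a4 a5 a6 a7
  nlinarith [mul_le_mul (add_le_add a4.2 a6.2) (add_le_add a5.2 a7.2) (by linarith) (by norm_num),
    mul_le_mul (add_le_add a1 a3) (add_le_add a2 a8.le) (by norm_num) (by linarith)]

end Pool.Agent.Results.MP_04c77c_pr.NotConvex
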